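import Pool.Agent.N570.HN.Mnp

/-!
# HN/CUR: the components of the curve `A l (x, z_l) = 0` and their projections (helper570)
-/

set_option autoImplicit false

open Polynomial FF Pool.Agent.W603.LV IntermediateField IsDedekindDomain

namespace Pool.Agent.N570.HNC

open Pool.Agent.N162.CV (MonicY)
open Pool.Agent.N558.CV
open Pool.Agent.N162.HN (Good At pr Crv StCUR)

section

/-- all but finitely many projections separate finite sets of points -/
lemma bad_finite {k K : Type*} [Field k] [Field K] [Algebra k K] {n : ℕ} {S T : Set (Fin n → K)}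
    (hS : S.Finite) (hT : T.Finite) :
    {t : k | ∃ π ∈ S, ∃ π' ∈ T, π ≠ π' ∧
      ∑ l : Fin n, algebraMap k K t ^ (l : ℕ) * π l =
        ∑ l : Fin n, algebraMap k K t ^ (l : ℕ) * π' l}.Finite := by
  classical
  have h1 : {t : k | ∃ π ∈ S, ∃ π' ∈ T, π ≠ π' ∧
      ∑ l : Fin n, algebraMap k K t ^ (l : ℕ) * π l =
        ∑ l : Fin n, algebraMap k K t ^ (l : ℕ) * π' l} =
      ⋃ π ∈ S, ⋃ π' ∈ T, {t : k | π ≠ π' ∧
        ∑ l : Fin n, algebraMap k K t ^ (l : ℕ) * π l =
        ∑ l : Fin n, algebraMap k K t ^ (l : ℕ) * π' l} := by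
    ext t
    simp only [Set.mem_ofPred_eq, Set.mem_iUnion, exists_prop]
  rw [h1]
  refine hS.biUnion fun π _ => hT.biUnion fun π' _ => ?_
  by_cases hne : π = π'
  · subst hne
    convert Set.finite_empty
    ext t
    simp
  · let D : K[X] := ∑ l : Fin n, C (π l - π' l) * X ^ (l : ℕ)
    have hD : D ≠ 0 := by
      intro h
      apply hne
      funext l
      have h2 : D.coeff (l : ℕ) = 0 := by rw [h, coeff_zero]
      simp only [D, finsetSum_coeff, coeff_C_mul_X_pow] at h2
      rw [Finset.sum_eq_single l] at h2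
      · rw [if_pos rfl] at h2
        exact sub_eq_zero.1 h2
      · intro m _ hm
        rw [if_neg]
        intro h3
        exact hm (Fin.ext h3.symm)
      · intro h3
        exact absurd (Finset.mem_univ l) h3
    have h2 : {t : k | π ≠ π' ∧
        ∑ l : Fin n, algebraMap k K t ^ (l : ℕ) * π l =
        ∑ l : Fin n, algebraMap k K t ^ (l : ℕ) * π' l} ⊆
        (algebraMap k K) ⁻¹' {x | IsRoot D x} := by
      rintro t ⟨_, ht⟩
      change D.eval (algebraMap k K t) = 0
      simp only [D, eval_finsetSum, eval_mul, eval_C, eval_pow, eval_X]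
      rw [← sub_eq_zero, ← Finset.sum_sub_distrib] at ht
      rw [← ht]
      exact Finset.sum_congr rfl fun l _ => by ring
    exact ((finite_setOfPred_isRoot hD).preimage (algebraMap k K).injective.injOn).subset h2

variable {k : Type} [Field k] {n : ℕ}

/-- the equation of the cylinder over the projection -/
noncomputable def cyl (t : k) (G : MvPolynomial (Fin 2) k) : MvPolynomial (Fin (n + 2)) k :=
  MvPolynomial.aeval (![MvPolynomial.X 1, ∑ l : Fin n, MvPolynomial.C t ^ (l : ℕ) *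
      MvPolynomial.X l.succ.succ] : Fin 2 → MvPolynomial (Fin (n + 2)) k) G

lemma aeval_cyl {E : Type} [Field E] [Algebra k E] (Y : Fin (n + 2) → E) (t : k)
    (G : MvPolynomial (Fin 2) k) :
    MvPolynomial.aeval Y (cyl t G) = MvPolynomial.aeval (pr (algebraMap k E t) Y) G := by
  unfold cyl pr
  rw [MvPolynomial.comp_aeval_apply]
  congr 2
  funext j
  fin_cases j
  · simp
  · simp

/-- the place of a homomorphism and the coordinates -/
lemma exists_at' [CharZero k] (c : Bn k n) (σ : c.b.E →ₐ[RatFunc k] LL k) (ρ : RR k →+* k) (a : k)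
    (hρ : ∀ P : k[X], ρ (algebraMap k[X] _ P) = P.eval a) (hz : ∀ l, IsIntegral k[X] (c.z l))
    (α : Fin n → RR k) (hα : ∀ l, (α l : LL k) = σ (c.z l))
    (p : Fin (n + 2) → k) (p0 : p 0 = 1) (p1 : p 1 = a) (p2 : ∀ l : Fin n, p l.succ.succ = ρ (α l)) :
    ∃ v : Place k c.b.E, At v (XX c) p := by
  obtain ⟨v, hv⟩ := exists_place c.b σ ρ a hρ
  refine ⟨v, ?_⟩
  change ∀ i, Ge v 1 (XX c i - algebraMap k c.b.E (p i))
  refine fin_cases' ?_ ?_ ?_
  · rw [p0, map_one, XX_zero, sub_self]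
    exact Ge.zero
  · rw [XX_one]
    have h1 := hv c.b.x (by rw [← c.b.x_eq]; exact isIntegral_algebraMap) (algebraMap k[X] _ X) (by
      rw [Bd.x, σ.commutes]
      change algebraMap k[X] (LL k) X = _
      rw [IsScalarTower.algebraMap_apply k[X] (RatFunc k) (LL k), RatFunc.algebraMap_X])
    rw [hρ, eval_X, ← p1] at h1
    exact h1
  · intro l
    rw [XX_ss, p2]
    exact hv (c.z l) (hz l) (α l) (hα l)

end

section

variable {k : Type} [Field k] [IsAlgClosed k] [CharZero k] {n : ℕ}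

/-- the projections -/
theorem proj_ (A : Fin n → MvPolynomial (Fin 2) k) (hA : ∀ l, MonicY (A l)) {r : ℕ}
    (c : Fin r → Bn k n) (hroot : ∀ i l, aeval ((c i).z l) (eqn (A l)) = 0)
    (hgen : ∀ i, Algebra.adjoin (RatFunc k) (Set.range (c i).z) = ⊤)
    (hsep : ∀ i j (σ : (c i).b.E →ₐ[RatFunc k] LL k) (τ : (c j).b.E →ₐ[RatFunc k] LL k),
      (∀ l, σ ((c i).z l) = τ ((c j).z l)) → i = j)
    (Γ : Finset (Fin (n + 2) → k)) (hΓ : ∀ p ∈ Γ, p 0 = 1) : ∃ bad : Finset k, ∀ t : k, t ∉ bad →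
      (∀ i, (RatFunc k)⟮w (c i) t⟯ = ⊤) ∧
      (∀ i j, i ≠ j → ¬ Associated (PP (c i) t) (PP (c j) t)) ∧
      ∀ i, ∀ p ∈ Γ, MvPolynomial.eval (pr t p) (GG (c i) t) = 0 →
        ∃ v : Place k (c i).b.E, At v (XX (c i)) p := by
  have hzi : ∀ i l, IsIntegral k[X] ((c i).z l) := fun i l => integral_of (hA l) (hroot i l)
  have hb1 := bad_finite (k := k) (K := LL k) (tup_finite hA) (tup_finite hA)
  have hb2 : (⋃ p ∈ Γ, {t : k | ∃ π ∈ Set.pi Set.univ (fun l => rtc (A l) (p 1)),
      ∃ π' ∈ ({fun l : Fin n => p l.succ.succ} : Set (Fin n → k)), π ≠ π' ∧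
      ∑ l : Fin n, algebraMap k k t ^ (l : ℕ) * π l =
        ∑ l : Fin n, algebraMap k k t ^ (l : ℕ) * π' l}).Finite :=
    Γ.finite_toSet.biUnion fun p _ => bad_finite (Set.Finite.pi fun l => rtc_finite (hA l) _)
      (Set.finite_singleton _)
  refine ⟨(hb1.union hb2).toFinset, fun t ht => ?_⟩
  rw [Set.Finite.mem_toFinset, Set.mem_union, not_or] at ht
  obtain ⟨ht1, ht2⟩ := ht
  have hσw : ∀ i (σ : (c i).b.E →ₐ[RatFunc k] LL k),
      σ (w (c i) t) = ∑ l : Fin n, algebraMap k (LL k) t ^ (l : ℕ) * σ ((c i).z l) := by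
    intro i σ
    unfold w
    rw [map_sum]
    refine Finset.sum_congr rfl fun l _ => ?_
    rw [map_mul, map_pow, IsScalarTower.algebraMap_apply k (RatFunc k) (c i).b.E, σ.commutes,
      ← IsScalarTower.algebraMap_apply]
  have hσr : ∀ i (σ : (c i).b.E →ₐ[RatFunc k] LL k), (fun l => σ ((c i).z l)) ∈ tup A := by
    intro i σ l _
    change aeval (σ ((c i).z l)) (eqn (A l)) = 0
    rw [aeval_algHom_apply, hroot, map_zero]
  have hkey : ∀ i j (σ : (c i).b.E →ₐ[RatFunc k] LL k) (τ : (c j).b.E →ₐ[RatFunc k] LL k),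
      σ (w (c i) t) = τ (w (c j) t) → ∀ l, σ ((c i).z l) = τ ((c j).z l) := by
    intro i j σ τ h
    by_contra hne
    apply ht1
    refine ⟨_, hσr i σ, _, hσr j τ, ?_, ?_⟩
    · intro h2
      exact hne fun l => congrFun h2 l
    · rw [← hσw, ← hσw]
      exact h
  refine ⟨?_, ?_, ?_⟩
  · intro i
    have : CharZero (RatFunc k) :=
      charZero_of_injective_algebraMap (algebraMap k (RatFunc k)).injective
    rw [Field.primitive_element_iff_algHom_eq_of_eval' (RatFunc k) (LL k)
      (fun x => IsAlgClosed.splits _)]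
    intro φ ψ h
    have h1 := hkey i i φ ψ h
    refine AlgHom.ext_of_adjoin_eq_top (hgen i) ?_
    rintro _ ⟨l, rfl⟩
    exact h1 l
  · intro i j hij h1
    apply hij
    have h3 := eq_of_monic_of_associated (P_monic (c i) hA (hroot i) t)
      (P_monic (c j) hA (hroot j) t) h1
    have h4 : minpoly (RatFunc k) (w (c i) t) = minpoly (RatFunc k) (w (c j) t) := by
      rw [P_map (c i) hA (hroot i), P_map (c j) hA (hroot j), h3]
    let σ : (c i).b.E →ₐ[RatFunc k] LL k := IsAlgClosed.lift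
    obtain ⟨τ, hτ⟩ := exists_hom_root (c j).b (w (c j) t) (σ (w (c i) t)) (by
      rw [← h4, aeval_algHom_apply, minpoly.aeval, map_zero])
    exact hsep i j σ τ (hkey i j σ τ hτ.symm)
  · intro i p hp hG
    rw [pr, G_eval] at hG
    obtain ⟨ρ, hρ⟩ := exists_rho (p 1)
    obtain ⟨α, hα, hα'⟩ := lift_pol ρ (p 1) hρ (PP (c i) t)
      (P_monic (c i) hA (hroot i) t) _ hG
    obtain ⟨σ, hσ⟩ := exists_hom_root (c i).b (w (c i) t) (α : LL k) (by
      rw [P_map (c i) hA (hroot i), aeval_map_algebraMap]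
      exact hα)
    choose g hg using fun l => exists_img (c i).b σ (hzi i l)
    have e1 : ∀ l, ρ (g l) ∈ rtc (A l) (p 1) := by
      intro l
      refine (mpol_eval (A l) (hA l) _ _).1 (red_pol ρ (p 1) hρ (mpol (A l)) (g l) ?_)
      rw [hg, ← eqn_root_iff]
      exact hσr i σ l trivial
    have e3 : ∑ l : Fin n, t ^ (l : ℕ) * ρ (g l) = ∑ l : Fin n, t ^ (l : ℕ) * p l.succ.succ := by
      have h1 : ∑ l : Fin n, algebraMap k (RR k) t ^ (l : ℕ) * g l = α := by
        apply RR_inj
        rw [map_sum]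
        change _ = (α : LL k)
        rw [← hσ, hσw]
        refine Finset.sum_congr rfl fun l _ => ?_
        rw [map_mul, map_pow, ← IsScalarTower.algebraMap_apply k (RR k) (LL k), ← hg l]
        rfl
      rw [← hα', ← h1, map_sum]
      refine Finset.sum_congr rfl fun l _ => ?_
      rw [map_mul, map_pow, rho_const ρ (p 1) hρ]
    have e4 : ∀ l : Fin n, ρ (g l) = p l.succ.succ := by
      by_contra hne
      apply ht2
      rw [Set.mem_iUnion₂]
      refine ⟨p, hp, fun l => ρ (g l), fun l _ => e1 l, fun l => p l.succ.succ, rfl, ?_, e3⟩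
      intro h2
      exact hne fun l => congrFun h2 l
    exact exists_at' (c i) σ ρ (p 1) hρ (hzi i) g hg p (hΓ p hp) rfl fun l => (e4 l).symm

end

/-- **HN/CUR** -/
theorem cur_ : StCUR := by
  intro n k _ _ _ A hn hA hA1
  obtain ⟨r, c, hroot, hgen, hcov, hsep⟩ := decomp A hA
  have hproj := proj_ A hA c hroot hgen hsep
  have hff : ∀ i, IsFF k (c i).b.E := fun i => (c i).b.isFF
  refine ⟨r, fun i => @Crv.mk n k _ (c i).b.E _ _ (hff i) (XX (c i))
    (good (c i) hA (hroot i) (hgen i)), ?_, ?_, ?_, ?_⟩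
  · intro i l
    exact (c i).b.aeval_A (hroot i l) (hA l)
  · intro p p0 pA
    obtain ⟨ρ, hρ⟩ := exists_rho (p 1)
    choose α hα hα' using fun l => lift_pol ρ (p 1) hρ (mpol (A l)) (mpol_monic (hA l))
      (p l.succ.succ) ((mpol_eval (A l) (hA l) _ _).2 (pA l))
    obtain ⟨i, σ, hσ⟩ := hcov (fun l => α l) fun l => (eqn_root_iff (A l) _).2 (hα l)
    exact ⟨i, exists_at' (c i) σ ρ (p 1) hρ (fun l => integral_of (hA l) (hroot i l)) α
      (fun l => (hσ l).symm) p p0 rfl fun l => (hα' l).symm⟩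
  · intro i j hij
    obtain ⟨bad, hbad⟩ := hproj ∅ (by simp)
    obtain ⟨t, ht⟩ := Infinite.exists_notMem_finset bad
    obtain ⟨h1, h2, -⟩ := hbad t ht
    refine ⟨cyl t (GG (c i) t), ?_, ?_⟩
    · change MvPolynomial.aeval (XX (c i)) _ = 0
      rw [aeval_cyl]
      exact G_aeval (c i) t
    · change MvPolynomial.aeval (XX (c j)) _ ≠ 0
      rw [aeval_cyl]
      intro h3
      have h4 := P_dvd (c j) (c i) hA (hroot j) t h3
      have hi := minpoly.irreducible (w_int (c i) hA (hroot i) t)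
      have hj := minpoly.irreducible (w_int (c j) hA (hroot j) t)
      exact h2 j i (Ne.symm hij) (hj.associated_of_dvd hi h4)
  · intro Γ hΓ
    obtain ⟨bad, hbad⟩ := hproj Γ hΓ
    refine ⟨bad, fun t ht => ?_⟩
    obtain ⟨h1, h2, h3⟩ := hbad t ht
    refine ⟨fun i => GG (c i) t, fun i => ⟨G_irr (c i) hA (hroot i) t,
      G_monicY (c i) hA (hroot i) t (h1 i), ?_, G_aeval (c i) t⟩, ?_, h3⟩
    · rw [G_deg (c i) hA (hroot i) t (h1 i), P_natDegree (c i) hA (hroot i) t (h1 i)]
      exact ((c i).b.finrank_x).symm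
    · intro i j hij hass
      apply h2 i j hij
      have h4 := hass.map (Bivariate.equivMvPolynomial k).symm
      unfold GG at h4
      rwa [AlgEquiv.symm_apply_apply, AlgEquiv.symm_apply_apply] at h4

end Pool.Agent.N570.HNC
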