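import Pool.Agent.N162.HN.Stm
import Pool.Agent.N558.CV.Cur

/-!
# HN/CUR, part 1: the decomposition (helper570)

A component is a finite extension `b : Bd k` of `k(x)` with an `n`-tuple `z` of elements.
-/

set_option autoImplicit false

open Polynomial FF Pool.Agent.W603.LV IntermediateField IsDedekindDomain

namespace Pool.Agent.N570.HNC

open Pool.Agent.N162.CV (MonicY)
open Pool.Agent.N558.CV

section

variable {k : Type} [Field k] {n : ℕ}

/-- tuples of roots -/
def tup (A : Fin n → MvPolynomial (Fin 2) k) : Set (Fin n → LL k) :=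
  Set.pi Set.univ fun l => rts (A l)

lemma tup_finite {A : Fin n → MvPolynomial (Fin 2) k} (hA : ∀ l, MonicY (A l)) :
    (tup A).Finite := Set.Finite.pi fun l => rts_finite (hA l)

/-- the polynomials over `k(x)` -/
abbrev RP (k : Type) [Field k] (n : ℕ) : Type := MvPolynomial (Fin n) (RatFunc k)

/-- the evaluation at a tuple -/
noncomputable def ev (π : Fin n → LL k) : RP k n →ₐ[RatFunc k] LL k := MvPolynomial.aeval π

lemma ev_X (π : Fin n → LL k) (l : Fin n) : ev π (MvPolynomial.X l) = π l := by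
  unfold ev
  exact MvPolynomial.aeval_X π l

/-- the kernel of the evaluation -/
noncomputable def kr (π : Fin n → LL k) : Ideal (RP k n) := RingHom.ker (ev π)

lemma mem_kr (π : Fin n → LL k) (P : RP k n) : P ∈ kr π ↔ ev π P = 0 := Iff.rfl

lemma kr_prime (π : Fin n → LL k) : (kr π).IsPrime := RingHom.ker_isPrime (ev π)

/-- the map from the quotient -/
noncomputable def qm (π : Fin n → LL k) : (RP k n ⧸ kr π) →ₐ[RatFunc k] LL k :=
  Ideal.Quotient.liftₐ (kr π) (ev π) (fun _ ha => ha)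

lemma qm_inj (π : Fin n → LL k) : Function.Injective (qm π) := by
  rw [injective_iff_map_eq_zero]
  intro a ha
  obtain ⟨a, rfl⟩ := Ideal.Quotient.mk_surjective a
  rw [Ideal.Quotient.eq_zero_iff_mem]
  exact ha

lemma qm_alg (π : Fin n → LL k) : Algebra.IsIntegral (RatFunc k) (RP k n ⧸ kr π) := by
  constructor
  intro a
  have h1 : IsIntegral (RatFunc k) (qm π a) := Algebra.IsIntegral.isIntegral _
  exact (isIntegral_algHom_iff (qm π) (qm_inj π)).1 h1

lemma kr_max (π : Fin n → LL k) : (kr π).IsMaximal := by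
  have h1 := qm_alg π
  have h2 := kr_prime π
  have h3 : IsDomain (RP k n ⧸ kr π) := Ideal.Quotient.isDomain (kr π)
  exact Ideal.Quotient.maximal_of_isField _
    (isField_of_isIntegral_of_isField' (Field.toIsField (RatFunc k)))

lemma kr_fd (π : Fin n → LL k) : FiniteDimensional (RatFunc k) (RP k n ⧸ kr π) := by
  have h1 := qm_alg π
  have h2 : Algebra.FiniteType (RatFunc k) (RP k n ⧸ kr π) :=
    Algebra.FiniteType.of_surjective (Ideal.Quotient.mkₐ (RatFunc k) (kr π))
      (Ideal.Quotient.mkₐ_surjective _ _)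
  exact Algebra.IsIntegral.finite

/-- the kernels -/
abbrev KK (A : Fin n → MvPolynomial (Fin 2) k) : Type :=
  {I : Ideal (RP k n) // ∃ π ∈ tup A, I = kr π}

lemma KK_finite {A : Fin n → MvPolynomial (Fin 2) k} (hA : ∀ l, MonicY (A l)) :
    Finite (KK A) := by
  have h1 : {I : Ideal (RP k n) | ∃ π ∈ tup A, I = kr π} = kr '' tup A := by
    ext I
    constructor
    · rintro ⟨π, h, rfl⟩
      exact ⟨π, h, rfl⟩
    · rintro ⟨π, h, rfl⟩
      exact ⟨π, h, rfl⟩
  have h2 : ({I : Ideal (RP k n) | ∃ π ∈ tup A, I = kr π}).Finite := by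
    rw [h1]
    exact (tup_finite hA).image _
  exact Set.finite_coe_iff.2 h2

variable {A : Fin n → MvPolynomial (Fin 2) k} (I : KK A)

instance KK_max : I.1.IsMaximal := by
  obtain ⟨π, _, h⟩ := I.2
  rw [h]
  exact kr_max π

lemma KK_fd : FiniteDimensional (RatFunc k) (RP k n ⧸ I.1) := by
  obtain ⟨π, _, h⟩ := I.2
  rw [h]
  exact kr_fd π

/-- the components -/
noncomputable def comp (I : KK A) : Bd k where
  E := RP k n ⧸ I.1
  fld := Ideal.Quotient.field I.1
  alg := inferInstanceAs (Algebra (RatFunc k) (RP k n ⧸ I.1))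
  fd := KK_fd I
  y := Ideal.Quotient.mk I.1 0
  z := Ideal.Quotient.mk I.1 0

/-- the projection -/
noncomputable def mkA : RP k n →ₐ[RatFunc k] (comp I).E := Ideal.Quotient.mkₐ (RatFunc k) I.1

/-- the coordinates -/
noncomputable def zz (l : Fin n) : (comp I).E := mkA I (MvPolynomial.X l)

lemma mkA_surj : Function.Surjective (mkA I) := Ideal.Quotient.mk_surjective

lemma mkA_eq_zero (a : RP k n) : mkA I a = 0 ↔ a ∈ I.1 := Ideal.Quotient.eq_zero_iff_mem

lemma exists_lift (h : RP k n →ₐ[RatFunc k] LL k) (hI : ∀ a ∈ I.1, h a = 0) :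
    ∃ σ : (comp I).E →ₐ[RatFunc k] LL k, ∀ a, σ (mkA I a) = h a :=
  ⟨Ideal.Quotient.liftₐ I.1 h hI, fun _ => rfl⟩

end

section

variable {k : Type} [Field k] {n : ℕ}

/-- a finite extension of `k(x)` with `n` elements -/
structure Bn (k : Type) [Field k] (n : ℕ) where
  b : Bd k
  z : Fin n → b.E

/-- **the decomposition** -/
theorem decomp (A : Fin n → MvPolynomial (Fin 2) k) (hA : ∀ l, MonicY (A l)) :
    ∃ (r : ℕ) (c : Fin r → Bn k n),
    (∀ i l, aeval ((c i).z l) (eqn (A l)) = 0) ∧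
    (∀ i, Algebra.adjoin (RatFunc k) (Set.range (c i).z) = ⊤) ∧
    (∀ α : Fin n → LL k, (∀ l, aeval (α l) (eqn (A l)) = 0) →
      ∃ i, ∃ σ : (c i).b.E →ₐ[RatFunc k] LL k, ∀ l, σ ((c i).z l) = α l) ∧
    (∀ i j (σ : (c i).b.E →ₐ[RatFunc k] LL k) (τ : (c j).b.E →ₐ[RatFunc k] LL k),
      (∀ l, σ ((c i).z l) = τ ((c j).z l)) → i = j) := by
  classical
  have hfin : Finite (KK A) := KK_finite hA
  let _ : Fintype (KK A) := Fintype.ofFinite _
  let e := Fintype.equivFin (KK A)
  refine ⟨Fintype.card (KK A), fun i => ⟨comp (e.symm i), zz (e.symm i)⟩, ?_, ?_, ?_, ?_⟩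
  · intro i l
    change aeval (mkA (e.symm i) (MvPolynomial.X l)) (eqn (A l)) = 0
    rw [aeval_algHom_apply, mkA_eq_zero]
    obtain ⟨π, hπ, h⟩ := (e.symm i).2
    rw [h, mem_kr, ← aeval_algHom_apply, ev_X]
    exact hπ l trivial
  · intro i
    change Algebra.adjoin (RatFunc k) (Set.range (zz (e.symm i))) = ⊤
    have h1 := AlgHom.map_adjoin (mkA (e.symm i)) (Set.range MvPolynomial.X)
    rw [MvPolynomial.adjoin_range_X, ← Set.range_comp] at h1
    have h2 : Set.range (zz (e.symm i)) = Set.range (mkA (e.symm i) ∘ MvPolynomial.X) := rfl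
    rw [h2, ← h1, Algebra.map_top, AlgHom.range_eq_top]
    exact mkA_surj _
  · intro α hα
    have key : ∀ I : KK A, I = ⟨kr α, α, fun l _ => hα l, rfl⟩ →
        ∃ σ : (comp I).E →ₐ[RatFunc k] LL k, ∀ l, σ (zz I l) = α l := by
      rintro I rfl
      obtain ⟨σ, hσ⟩ := exists_lift (A := A) ⟨kr α, α, fun l _ => hα l, rfl⟩ (ev α)
        (fun a ha => ha)
      refine ⟨σ, fun l => ?_⟩
      unfold zz
      rw [hσ, ev_X]
    exact ⟨e ⟨kr α, α, fun l _ => hα l, rfl⟩, key _ (Equiv.symm_apply_apply _ _)⟩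
  · intro i j σ τ h
    change ∀ l, σ (mkA (e.symm i) (MvPolynomial.X l)) = τ (mkA (e.symm j) (MvPolynomial.X l)) at h
    have h1 : σ.comp (mkA (e.symm i)) = τ.comp (mkA (e.symm j)) :=
      MvPolynomial.algHom_ext h
    have h2 : (e.symm i).1 = (e.symm j).1 := by
      ext a
      rw [← mkA_eq_zero, ← mkA_eq_zero, ← map_eq_zero_iff σ σ.toRingHom.injective,
        ← map_eq_zero_iff τ τ.toRingHom.injective]
      have h3 := congrArg (fun f : RP k n →ₐ[RatFunc k] LL k => f a) h1
      simp only [AlgHom.comp_apply] at h3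
      rw [h3]
    exact e.symm.injective (Subtype.ext h2)

end

end Pool.Agent.N570.HNC
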