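import Pool.Agent.N570.HN.Bdn

/-!
# HN/CUR, part 2: the coordinates and the equation of the projection (helper570)
-/

set_option autoImplicit false

open Polynomial FF Pool.Agent.W603.LV IntermediateField IsDedekindDomain

namespace Pool.Agent.N570.HNC

open Pool.Agent.N162.CV (MonicY)
open Pool.Agent.N558.CV
open Pool.Agent.N162.HN (Good At pr)

section

variable {k : Type} [Field k] {n : ℕ} (c : Bn k n)

/-- the coordinates -/
noncomputable def XX : Fin (n + 2) → c.b.E := Fin.cons 1 (Fin.cons c.b.x c.z)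

lemma XX_zero : XX c 0 = 1 := rfl

lemma XX_one : XX c 1 = c.b.x := rfl

lemma XX_ss (l : Fin n) : XX c l.succ.succ = c.z l := rfl

lemma fin_cases' {n : ℕ} {Q : Fin (n + 2) → Prop} (h0 : Q 0) (h1 : Q 1)
    (h2 : ∀ l : Fin n, Q l.succ.succ) (i : Fin (n + 2)) : Q i := by
  refine Fin.cases h0 (fun j => ?_) i
  exact Fin.cases h1 h2 j

variable {A : Fin n → MvPolynomial (Fin 2) k} (hA : ∀ l, MonicY (A l))
  (hz : ∀ l, aeval (c.z l) (eqn (A l)) = 0)
  (hgen : Algebra.adjoin (RatFunc k) (Set.range c.z) = ⊤)

include hgen in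
lemma adjoin_top : IntermediateField.adjoin k (Set.range (XX c)) = ⊤ := by
  rw [eq_top_iff]
  intro u _
  have hx : c.b.x ∈ IntermediateField.adjoin k (Set.range (XX c)) := subset_adjoin _ _ ⟨1, rfl⟩
  have hz' : ∀ l, c.z l ∈ IntermediateField.adjoin k (Set.range (XX c)) :=
    fun l => subset_adjoin _ _ ⟨l.succ.succ, rfl⟩
  have hu : u ∈ Algebra.adjoin (RatFunc k) (Set.range c.z) := by rw [hgen]; trivial
  induction hu using Algebra.adjoin_induction with
  | mem u hu =>
    obtain ⟨l, rfl⟩ := hu
    exact hz' l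
  | algebraMap r => exact c.b.mem_adjoin r _ hx
  | add u v _ _ h1 h2 => exact add_mem (h1 trivial) (h2 trivial)
  | mul u v _ _ h1 h2 => exact mul_mem (h1 trivial) (h2 trivial)

include hA hz hgen in
/-- the coordinates are in good position -/
theorem good : Good k (XX c) where
  one := rfl
  tr := c.b.tr
  fin := by
    intro v hv
    rw [XX_one] at hv
    refine fin_cases' ?_ ?_ ?_
    · exact Ge.one
    · exact hv
    · exact fun l => c.b.reg_fin v hv (integral_of (hA l) (hz l))
  inf := by
    intro v hv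
    rw [XX_one] at hv
    refine fin_cases' ?_ ?_ ?_
    · right
      change 0 ≤ v.ord (1 / c.b.x)
      rw [one_div, v.ord_inv]
      omega
    · change Ge v 0 (c.b.x / c.b.x)
      rw [div_self c.b.x_ne]
      exact Ge.one
    · exact fun l => c.b.reg_inf v hv (hA l) (hz l)
  gen := adjoin_top c hgen

/-! ### the primitive element -/

/-- the projection -/
noncomputable def w (t : k) : c.b.E := ∑ l : Fin n, algebraMap k c.b.E t ^ (l : ℕ) * c.z l

lemma pr_XX (t : k) : pr (algebraMap k c.b.E t) (XX c) = ![c.b.x, w c t] := rfl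

include hA hz in
lemma w_int (t : k) : IsIntegral k[X] (w c t) := by
  unfold w
  refine IsIntegral.sum _ fun l _ => IsIntegral.mul (IsIntegral.pow ?_ _)
    (integral_of (hA l) (hz l))
  rw [IsScalarTower.algebraMap_apply k k[X] c.b.E]
  exact isIntegral_algebraMap

/-- the equation of the projection -/
noncomputable def PP (t : k) : k[X][X] := minpoly k[X] (w c t)

include hA hz in
lemma P_map (t : k) : minpoly (RatFunc k) (w c t) = (PP c t).map (algebraMap k[X] (RatFunc k)) :=
  minpoly.isIntegrallyClosed_eq_field_fractions' (RatFunc k) (w_int c hA hz t)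

include hA hz in
lemma P_monic (t : k) : (PP c t).Monic := minpoly.monic (w_int c hA hz t)

include hA hz in
lemma P_natDegree (t : k) (ht : (RatFunc k)⟮w c t⟯ = ⊤) :
    (PP c t).natDegree = Module.finrank (RatFunc k) c.b.E := by
  rw [Field.primitive_element_iff_minpoly_natDegree_eq, P_map c hA hz,
    (P_monic c hA hz t).natDegree_map] at ht
  exact ht

include hA hz in
lemma P_coeff (t : k) (ht : (RatFunc k)⟮w c t⟯ = ⊤) (j : ℕ) (hj : (PP c t).coeff j ≠ 0) :
    ((PP c t).coeff j).natDegree + j ≤ (PP c t).natDegree := by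
  classical
  set V := (RatFunc.inftyValuation k).valuationSubring with hV
  have hX0 : (RatFunc.X : RatFunc k) ≠ 0 := RatFunc.X_ne_zero
  let _ : Algebra V c.b.E := ((algebraMap (RatFunc k) c.b.E).comp (algebraMap V (RatFunc k))).toAlgebra
  have : IsScalarTower V (RatFunc k) c.b.E := IsScalarTower.of_algebraMap_eq' rfl
  have hcon : ∀ a : k, algebraMap k (RatFunc k) a ∈ V := by
    intro a
    rw [hV, Valuation.mem_valuationSubring_iff]
    by_cases hc : a = 0
    · rw [hc, map_zero, map_zero]
      exact zero_le_one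
    · exact (RatFunc.inftyValuation.C k hc).le
  let _ : Algebra k V := ((algebraMap k (RatFunc k)).codRestrict V hcon).toAlgebra
  have : IsScalarTower k V c.b.E := IsScalarTower.of_algebraMap_eq fun a => rfl
  have hXi : (RatFunc.X : RatFunc k)⁻¹ ∈ V := by
    rw [hV, Valuation.mem_valuationSubring_iff, ← one_div, RatFunc.inftyValuation.X_inv,
      ← WithZero.exp_zero, WithZero.exp_le_exp]
    norm_num
  have hβ : algebraMap V c.b.E ⟨(RatFunc.X : RatFunc k)⁻¹, hXi⟩ = c.b.x⁻¹ := by
    change algebraMap (RatFunc k) c.b.E (RatFunc.X)⁻¹ = _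
    rw [map_inv₀]
    rfl
  -- integrality at infinity
  have hzi : ∀ l, IsIntegral V (c.z l / c.b.x) := fun l =>
    isIntegral_inf (A l) (hA l) ⟨_, hXi⟩ c.b.x (c.z l) c.b.x_ne hβ (c.b.aeval_A (hz l) (hA l))
  have hti : IsIntegral V (algebraMap k c.b.E t) := by
    rw [IsScalarTower.algebraMap_apply k V c.b.E]
    exact isIntegral_algebraMap
  have hwi : IsIntegral V (w c t / c.b.x) := by
    have e : w c t / c.b.x = ∑ l : Fin n, algebraMap k c.b.E t ^ (l : ℕ) * (c.z l / c.b.x) := by
      unfold w
      rw [Finset.sum_div]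
      exact Finset.sum_congr rfl fun l _ => mul_div_assoc _ _ _
    rw [e]
    exact IsIntegral.sum _ fun l _ => (hti.pow _).mul (hzi l)
  set Q := minpoly (RatFunc k) (w c t / c.b.x) with hQ
  have hQm : Q.Monic := minpoly.monic (IsIntegral.of_finite (RatFunc k) _)
  have hQc : ∀ j, Q.coeff j ∈ V := by
    intro j
    rw [hQ, minpoly.isIntegrallyClosed_eq_field_fractions' (RatFunc k) hwi, coeff_map]
    exact ((minpoly V (w c t / c.b.x)).coeff j).2
  have hQd : Q.natDegree ≤ Module.finrank (RatFunc k) c.b.E := minpoly.natDegree_le _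
  have hroot : aeval (w c t) (Q.scaleRoots RatFunc.X) = 0 := by
    have h1 := scaleRoots_aeval_eq_zero (r := (RatFunc.X : RatFunc k)) (minpoly.aeval (RatFunc k)
      (w c t / c.b.x))
    have e : algebraMap (RatFunc k) c.b.E RatFunc.X * (w c t / c.b.x) = w c t :=
      mul_div_cancel₀ _ c.b.x_ne
    rw [e] at h1
    exact h1
  have hSm : (Q.scaleRoots RatFunc.X).Monic := (monic_scaleRoots_iff _).2 hQm
  have hfr := P_natDegree c hA hz t ht
  have hmin : minpoly (RatFunc k) (w c t) = Q.scaleRoots RatFunc.X := by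
    have h1 := minpoly.dvd _ _ hroot
    have h2 := minpoly.monic (IsIntegral.of_finite (RatFunc k) (w c t))
    have h3 := eq_leadingCoeff_mul_of_monic_of_dvd_of_natDegree_le h2 h1 (by
      rw [natDegree_scaleRoots, P_map c hA hz, (P_monic c hA hz t).natDegree_map, hfr]
      exact hQd)
    rw [hSm.leadingCoeff, C_1, one_mul] at h3
    exact h3.symm
  have hQn : Q.natDegree = (PP c t).natDegree := by
    have h1 := congrArg natDegree hmin
    rw [natDegree_scaleRoots, P_map c hA hz, (P_monic c hA hz t).natDegree_map] at h1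
    exact h1.symm
  have hjn : j ≤ (PP c t).natDegree := le_natDegree_of_ne_zero hj
  have hc : algebraMap k[X] (RatFunc k) ((PP c t).coeff j) =
      Q.coeff j * RatFunc.X ^ ((PP c t).natDegree - j) := by
    rw [← coeff_map, ← P_map c hA hz, hmin, coeff_scaleRoots, hQn]
  have hv := congrArg (RatFunc.inftyValuation k) hc
  rw [RatFunc.inftyValuation_apply, RatFunc.inftyValuation.polynomial k hj, map_mul, map_pow,
    RatFunc.inftyValuation.X, ← WithZero.exp_nsmul] at hv
  have hle : RatFunc.inftyValuation k (Q.coeff j) ≤ 1 := by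
    have := hQc j
    rwa [hV, Valuation.mem_valuationSubring_iff] at this
  have h4 : WithZero.exp (((PP c t).coeff j).natDegree : ℤ) ≤
      WithZero.exp ((((PP c t).natDegree - j : ℕ)) • (1 : ℤ)) := by
    rw [hv]
    exact mul_le_of_le_one_left' hle
  rw [WithZero.exp_le_exp] at h4
  simp only [nsmul_eq_mul, mul_one] at h4
  omega

/-- the equation of the projection -/
noncomputable def GG (t : k) : MvPolynomial (Fin 2) k := Bivariate.equivMvPolynomial k (PP c t)

include hA hz in
lemma G_coeff_top (t : k) :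
    (GG c t).coeff (Finsupp.single 1 (PP c t).natDegree) = 1 := by
  unfold GG
  rw [coeff_equiv]
  have h1 : (PP c t).coeff (PP c t).natDegree = 1 := P_monic c hA hz t
  simp [h1]

include hA hz in
lemma G_deg (t : k) (ht : (RatFunc k)⟮w c t⟯ = ⊤) :
    (GG c t).totalDegree = (PP c t).natDegree := by
  apply le_antisymm
  · unfold MvPolynomial.totalDegree
    refine Finset.sup_le fun m hm => ?_
    rw [MvPolynomial.mem_support_iff] at hm
    unfold GG at hm
    rw [coeff_equiv] at hm
    have h1 : (PP c t).coeff (m 1) ≠ 0 := by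
      intro h
      rw [h, coeff_zero] at hm
      exact hm rfl
    have h2 := P_coeff c hA hz t ht (m 1) h1
    have h3 : m 0 ≤ ((PP c t).coeff (m 1)).natDegree := le_natDegree_of_ne_zero hm
    rw [Finsupp.sum_fintype _ _ (fun _ => rfl), Fin.sum_univ_two]
    omega
  · have h1 := deg_le (A := GG c t) (m := Finsupp.single 1 (PP c t).natDegree) (by
      rw [MvPolynomial.mem_support_iff, G_coeff_top c hA hz]
      exact one_ne_zero)
    simpa using h1

include hA hz in
lemma G_monicY (t : k) (ht : (RatFunc k)⟮w c t⟯ = ⊤) : MonicY (GG c t) := by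
  unfold MonicY
  rw [G_deg c hA hz t ht, G_coeff_top c hA hz]
  exact one_ne_zero

include hA hz in
lemma G_irr (t : k) : Irreducible (GG c t) := by
  unfold GG
  rw [MulEquiv.irreducible_iff (Bivariate.equivMvPolynomial k)]
  exact minpoly.irreducible (w_int c hA hz t)

lemma G_aeval' (P : k[X][X]) (t : k) :
    MvPolynomial.aeval ![c.b.x, w c t] (Bivariate.equivMvPolynomial k P) = aeval (w c t) P := by
  rw [mv_aeval]
  have e1 : ((aeval c.b.x : k[X] →ₐ[k] c.b.E) : k[X] →+* c.b.E) = algebraMap k[X] c.b.E :=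
    RingHom.ext fun P => c.b.aeval_x P
  rw [e1]
  rfl

lemma G_aeval (t : k) : MvPolynomial.aeval ![c.b.x, w c t] (GG c t) = 0 := by
  unfold GG
  rw [G_aeval']
  exact minpoly.aeval k[X] (w c t)

lemma G_eval (t a s : k) :
    MvPolynomial.eval ![a, s] (GG c t) = ((PP c t).map (evalRingHom a)).eval s := by
  have h := mv_aeval (E := k) (PP c t) a s
  have e1 : ((aeval a : k[X] →ₐ[k] k) : k[X] →+* k) = evalRingHom a := by
    ext <;> simp
  rw [e1, ← eval_map] at h
  exact h

/-- polynomials which vanish on the projection are multiples of the equation -/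
lemma P_dvd (c' : Bn k n) (hA : ∀ l, MonicY (A l)) (hz : ∀ l, aeval (c.z l) (eqn (A l)) = 0) (t : k)
    (h : MvPolynomial.aeval ![c.b.x, w c t] (GG c' t) = 0) : PP c t ∣ PP c' t := by
  unfold GG at h
  rw [G_aeval'] at h
  have : Module.IsTorsionFree k[X] c.b.E :=
    Module.isTorsionFree_iff_algebraMap_injective.2 c.b.inj
  exact minpoly.isIntegrallyClosed_dvd (w_int c hA hz t) h

end

end Pool.Agent.N570.HNC
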